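import Pool.Agent.Work.MP_e8003b_pr.Adm

/-!
# MP_e8003b_pr, Q1: the speed of propagation is not superadditive in the birth rate

Dimension `d = 1`. The first rate is `1` at points within distance `1` of a particle or within
distance `2` of a particle that has another particle within distance `1` (and `0` elsewhere); the
second rate is `1` at points within distance `3` of a particle. The speeds of the two rates and of
their sum are `3/2`, `9/2` and `41/7 < 6`.
-/

open MeasureTheory

namespace Pool.Agent.Results.MP_e8003b_pr.SpeedNotSuperadditive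

open Pool.Agent.Work.MPe8003b

/-- There are admissible birth rates `b₁, b₂` on `ℝ` whose speeds of propagation are `3/2` and
`9/2`, while the speed of propagation of `b₁ + b₂` is `41/7`, which is less than `3/2 + 9/2`. -/
theorem result :
    ∃ b₁ b₂ : ℝ → Finset ℝ → ℝ, Admissible b₁ ∧ Admissible b₂ ∧
      Admissible (fun x η => b₁ x η + b₂ x η) ∧
      (∀ s : ℝ, IsSpeed b₁ s ↔ s = 3 / 2) ∧
      (∀ s : ℝ, IsSpeed b₂ s ↔ s = 9 / 2) ∧
      (∀ s : ℝ, IsSpeed (fun x η => b₁ x η + b₂ x η) s ↔ s = 41 / 7) ∧
      (41 / 7 : ℝ) < 3 / 2 + 9 / 2 :=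
  ⟨rateA, rateB, admissible_A, admissible_B, admissible_AB, speed_A, speed_B, speed_AB,
    by norm_num⟩

end Pool.Agent.Results.MP_e8003b_pr.SpeedNotSuperadditive
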